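import Pool.Agent.Hhelper44.CG.Borel
import Pool.Agent.Hhelper44.CG.Count

/-!
# A stretched Clebsch-Gordan quasi-polynomial in type `C₃` with a negative coefficient

Let `𝔤 = sp₆(ℂ)` (type `C₃`), and write dominant weights in the coordinates `ε₁, ε₂, ε₃`
(so a dominant integral weight is a weakly decreasing triple of natural numbers, and
`ω₁ = (1,0,0)`, `ω₂ = (1,1,0)`, `ω₃ = (1,1,1)`).  For

* `λ = (4,3,3) = ω₁ + 3 ω₃`,
* `μ = (3,3,3) = 3 ω₃`,
* `ν = (5,3,1) = 2 ω₁ + 2 ω₂ + ω₃`,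

the stretched Clebsch-Gordan coefficient `c(t)`, the multiplicity of `V_{tν}` in
`V_{tλ} ⊗ V_{tμ}`, equals `(t + 2)(t + 4)/8` for even `t` and `(t² - 1)/8` for odd `t`.
So the odd constituent polynomial has the negative coefficient `-1/8`.
-/

set_option autoImplicit false

namespace Pool.Agent.Results.MP_17d326_co.StretchedCGNegative

open scoped TensorProduct
open Polynomial

/-- The simple complex Lie algebra `sp₆(ℂ)` of type `C₃` (Mathlib's `LieAlgebra.Symplectic.sp`):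
block matrices `(A, B; C, -Aᵀ)` with `B`, `C` symmetric. -/
abbrev sp6 := LieAlgebra.Symplectic.sp (Fin 3) ℂ

/-- `x` lies in the standard Borel subalgebra of `sp₆`: in the block form `(A, B; C, -Aᵀ)`, the
block `A` is upper triangular and `C = 0`. -/
def InBorel (x : sp6) : Prop :=
  (∀ i j : Fin 3, j < i → x.1 (.inl i) (.inl j) = 0) ∧ ∀ i j : Fin 3, x.1 (.inr i) (.inl j) = 0

/-- `V` is an irreducible finite-dimensional `sp₆`-module of highest weight
`κ = κ₁ ε₁ + κ₂ ε₂ + κ₃ ε₃`: it has a nonzero vector `v` such that `x v = κ(x) v` for all `x` in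
the Borel subalgebra, where `κ(x) = ∑ᵢ κᵢ xᵢᵢ`. -/
def IsIrrep (κ : Fin 3 → ℕ) (V : Type) [AddCommGroup V] [Module ℂ V] [LieRingModule sp6 V]
    [LieModule ℂ sp6 V] : Prop :=
  FiniteDimensional ℂ V ∧ LieModule.IsIrreducible ℂ sp6 V ∧
    ∃ v : V, v ≠ 0 ∧
      ∀ x : sp6, InBorel x → ⁅x, v⁆ = (∑ i, (κ i : ℂ) * x.1 (.inl i) (.inl i)) • v

/-- There is an irreducible finite-dimensional `sp₆`-module of highest weight `κ`. -/
def HasIrrep (κ : Fin 3 → ℕ) : Prop :=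
  ∃ (V : Type) (_ : AddCommGroup V) (_ : Module ℂ V) (_ : LieRingModule sp6 V)
    (_ : LieModule ℂ sp6 V), IsIrrep κ V

/-- `c` is the Clebsch-Gordan coefficient `c_{lam,mu}^{nu}` of `sp₆`, the multiplicity of `V_nu` in
`V_lam ⊗ V_mu`, that is, the dimension of `Hom_{sp₆}(V_nu, V_lam ⊗ V_mu)` (the irreducible modules
exist, and for every choice of them the dimension is `c`). -/
def IsClebschGordan (lam mu nu : Fin 3 → ℕ) (c : ℕ) : Prop :=
  HasIrrep lam ∧ HasIrrep mu ∧ HasIrrep nu ∧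
  ∀ (V₁ V₂ V₃ : Type)
    [AddCommGroup V₁] [Module ℂ V₁] [LieRingModule sp6 V₁] [LieModule ℂ sp6 V₁]
    [AddCommGroup V₂] [Module ℂ V₂] [LieRingModule sp6 V₂] [LieModule ℂ sp6 V₂]
    [AddCommGroup V₃] [Module ℂ V₃] [LieRingModule sp6 V₃] [LieModule ℂ sp6 V₃],
    IsIrrep lam V₁ → IsIrrep mu V₂ → IsIrrep nu V₃ →
      Module.finrank ℂ (V₃ →ₗ⁅ℂ, sp6⁆ V₁ ⊗[ℂ] V₂) = c

/-- `λ = ω₁ + 3 ω₃` -/
def lam : Fin 3 → ℕ := ![4, 3, 3]
/-- `μ = 3 ω₃` -/
def mu : Fin 3 → ℕ := ![3, 3, 3]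
/-- `ν = 2 ω₁ + 2 ω₂ + ω₃` -/
def nu : Fin 3 → ℕ := ![5, 3, 1]

section Proof

open Pool.Agent.Hhelper44.CG

/-- coercion of weights -/
def toW (κ : Fin 3 → ℕ) : Wt := fun i => (κ i : ℤ)

lemma toW_hw {κ : Fin 3 → ℕ} {V : Type} [AddCommGroup V] [Module ℂ V] [LieRingModule sp6 V]
    [LieModule ℂ sp6 V] {v : V}
    (hv : ∀ x : sp6, InBorel x → ⁅x, v⁆ = (∑ i, (κ i : ℂ) * x.1 (.inl i) (.inl i)) • v) :
    v ∈ hwSpace V (toW κ) := by
  apply hw_of_borel
  intro x hx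
  rw [hv x hx]
  simp only [toW, Int.cast_natCast]

lemma hasIrrep {κ : Fin 3 → ℕ} (hκ : Antitone κ) : HasIrrep κ := by
  obtain ⟨V, i1, i2, i3, i4, i5, v, hv, hv0⟩ := occ_dom (toW κ)
    (by simp only [toW]; exact_mod_cast hκ (by decide : (0 : Fin 3) ≤ 1))
    (by simp only [toW]; exact_mod_cast hκ (by decide : (1 : Fin 3) ≤ 2))
    (by simp only [toW]; exact Int.natCast_nonneg _)
  refine ⟨LieSubmodule.lieSpan ℂ g6 {v}, inferInstance, inferInstance, inferInstance,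
    inferInstance, inferInstance, gen_irreducible hv hv0, gen v, gen_ne_zero hv0, ?_⟩
  intro x hx
  have := borel_of_hw (gen_hw hv) x hx
  rw [this]
  simp only [toW, Int.cast_natCast]

lemma antitone_smul {κ : Fin 3 → ℕ} (hκ : Antitone κ) (t : ℕ) : Antitone (t • κ) := by
  intro i j hij
  simp only [Pi.smul_apply, smul_eq_mul]
  exact Nat.mul_le_mul_left t (hκ hij)

lemma lam_anti : Antitone lam := by
  intro i j hij; revert i j; decide
lemma mu_anti : Antitone mu := by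
  intro i j hij; revert i j; decide
lemma nu_anti : Antitone nu := by
  intro i j hij; revert i j; decide

lemma isCG (t : ℕ) : IsClebschGordan (t • lam) (t • mu) (t • nu) (cnt t) := by
  refine ⟨hasIrrep (antitone_smul lam_anti t), hasIrrep (antitone_smul mu_anti t),
    hasIrrep (antitone_smul nu_anti t), ?_⟩
  intro V₁ V₂ V₃ _ _ _ _ _ _ _ _ _ _ _ _ ⟨f1, i1, v1, h1, hv1'⟩ ⟨f2, i2, v2, h2, hv2'⟩
    ⟨f3, i3, v3, h3, hv3'⟩
  have hv1 := toW_hw hv1'
  have hv2 := toW_hw hv2'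
  have hv3 := toW_hw hv3'
  have g1 := irr_span h1
  have g2 := irr_span h2
  obtain ⟨n1, b1, w1, hb1⟩ := exists_WB (hwmod_isWM hv1 g1)
  obtain ⟨n2, b2, w2, hb2⟩ := exists_WB (hwmod_isWM hv2 g2)
  have hb := tensor_WB hb1 hb2
  rw [finrank_hom hv3 h3]
  have e1 := finrank_hwSpace hb (hw_sdom hv3 h3)
  rw [tensor_char, ← mul_assoc, weyl_char hb1 hv1 h1 g1] at e1
  have k1 : toW (t • lam) + rho = src t := by
    ext i; fin_cases i <;> simp [toW, lam, rho, src] <;> ring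
  have k3 : toW (t • nu) + rho = tgt t := by
    ext i; fin_cases i <;> simp [toW, nu, rho, tgt] <;> ring
  have k2 : toW (t • mu) + rho = ![3 * (t : ℤ) + 3, 3 * (t : ℤ) + 2, 3 * (t : ℤ) + 1] := by
    ext i; fin_cases i <;> simp [toW, mu, rho] <;> ring
  rw [k1, k3] at e1
  rw [key2 t] at e1
  · exact_mod_cast e1.symm
  · rw [← Dl_eq, mul_comm, weyl_char hb2 hv2 h2 g2, k2]
  · intro β hβ
    apply char_bound hb2 hv2 g2 β
    obtain ⟨i, hi⟩ := hβ
    refine ⟨i, lt_of_le_of_lt (le_of_eq ?_) hi⟩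
    simp [toW, mu]; ring

end Proof

/-- **Counterexample to the nonnegativity of the coefficients of the stretched Clebsch-Gordan
quasi-polynomials.**  For `sp₆(ℂ)` and the dominant integral weights `lam = ω₁ + 3 ω₃`,
`mu = 3 ω₃`, `nu = 2 ω₁ + 2 ω₂ + ω₃`, the stretched Clebsch-Gordan coefficients
`c(t) = c_{t lam, t mu}^{t nu}` are given by `p₀ = (t + 2)(t + 4)/8` for even `t` and by
`p₁ = (t² - 1)/8` for odd `t`; `p₁` is not zero and its constant coefficient is negative. -/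
theorem result :
    Antitone lam ∧ Antitone mu ∧ Antitone nu ∧
    ∃ (c : ℕ → ℕ) (p₀ p₁ : ℚ[X]),
      (∀ t, IsClebschGordan (t • lam) (t • mu) (t • nu) (c t)) ∧
      (∀ t, Even t → (c t : ℚ) = p₀.eval (t : ℚ)) ∧
      (∀ t, Odd t → (c t : ℚ) = p₁.eval (t : ℚ)) ∧
      p₀ = C (1 / 8) * (X + C 2) * (X + C 4) ∧
      p₁ = C (1 / 8) * (X ^ 2 - 1) ∧
      p₁ ≠ 0 ∧ p₁.coeff 0 < 0 := by
  refine ⟨lam_anti, mu_anti, nu_anti, Pool.Agent.Hhelper44.CG.cnt, C (1 / 8) * (X + C 2) * (X + C 4),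
    C (1 / 8) * (X ^ 2 - 1), isCG, ?_, ?_, rfl, rfl, ?_, ?_⟩
  · rintro t ⟨s, rfl⟩
    have h := Pool.Agent.Hhelper44.CG.cnt_even s
    rw [← two_mul]
    have h' : (2 : ℚ) * (Pool.Agent.Hhelper44.CG.cnt (2 * s) : ℚ) =
      ((s : ℚ) + 1) * ((s : ℚ) + 2) := by exact_mod_cast h
    simp only [eval_mul, eval_C, eval_add, eval_X]
    push_cast
    linear_combination (1 / 2) * h'
  · rintro t ⟨s, rfl⟩
    have h := Pool.Agent.Hhelper44.CG.cnt_odd s
    have h' : (2 : ℚ) * (Pool.Agent.Hhelper44.CG.cnt (2 * s + 1) : ℚ) =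
      (s : ℚ) * ((s : ℚ) + 1) := by exact_mod_cast h
    simp only [eval_mul, eval_C, eval_sub, eval_X, eval_pow, eval_one]
    push_cast
    linear_combination (1 / 2) * h'
  · intro h
    have := congrArg (fun p : ℚ[X] => p.coeff 0) h
    simp [coeff_one] at this
  · simp [coeff_one]

end Pool.Agent.Results.MP_17d326_co.StretchedCGNegative
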